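import Pool.Agent.Helper17.SO.Stmts

set_option autoImplicit false

open Finset

namespace Pool.Agent.Helper17.SO

theorem cntz_growth (C2 δ : ℝ) (I : ℕ) (hC : 0 ≤ C2) (hδ : 0 < δ) (hI : 1 ≤ I) :
    ∃ C3 : ℝ, 0 < C3 ∧ ∀ t : ℝ, 0 ≤ t → (C2 + 2 * t) ^ I ≤ C3 * Real.exp (δ * t) := by
  have hI0 : (0 : ℝ) < I := by exact_mod_cast hI
  refine ⟨(C2 + 2 * I / δ) ^ I, ?_, ?_⟩
  · have : 0 < 2 * (I : ℝ) / δ := by positivity
    positivity
  · intro t ht
    have h1 : δ * t / I ≤ Real.exp (δ * t / I) := by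
      have := Real.add_one_le_exp (δ * t / I)
      linarith
    have h2 : 2 * t ≤ 2 * I / δ * Real.exp (δ * t / I) := by
      have : 2 * t = 2 * I / δ * (δ * t / I) := by
        field_simp
      rw [this]
      exact mul_le_mul_of_nonneg_left h1 (by positivity)
    have h3 : C2 ≤ C2 * Real.exp (δ * t / I) := by
      have : (1 : ℝ) ≤ Real.exp (δ * t / I) := Real.one_le_exp (by positivity)
      nlinarith
    have h4 : C2 + 2 * t ≤ (C2 + 2 * I / δ) * Real.exp (δ * t / I) := by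
      rw [add_mul]; linarith
    calc (C2 + 2 * t) ^ I ≤ ((C2 + 2 * I / δ) * Real.exp (δ * t / I)) ^ I :=
          pow_le_pow_left₀ (by positivity) h4 I
      _ = (C2 + 2 * I / δ) ^ I * Real.exp (δ * t) := by
          rw [mul_pow, ← Real.exp_nat_mul]
          congr 2
          field_simp

theorem cntz_big (lam x w : ℕ) (hw : 1 ≤ w) (S : Finset ℕ)
    (hS : ∀ k ∈ S, k ≤ x ∧ ∃ m n : ℕ, w < m ∧ 1 ≤ n ∧ k = m ^ 2 * n + lam) :
    (S.card : ℝ) ≤ (x : ℝ) / w := by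
  classical
  have h1 : S ⊆ (Finset.Ioc w x).biUnion
      (fun m => (Finset.Ioc 0 (x / m ^ 2)).image (fun t => m ^ 2 * t + lam)) := by
    intro k hk
    obtain ⟨hkx, m, n, hm, hn, hkm⟩ := hS k hk
    rw [Finset.mem_biUnion]
    have hm0 : 0 < m ^ 2 := pow_pos (by omega) 2
    have hle : m ^ 2 * n ≤ x := by omega
    have hmx : m ≤ x := by
      calc m ≤ m ^ 2 := Nat.le_self_pow (by norm_num) m
        _ ≤ m ^ 2 * n := Nat.le_mul_of_pos_right _ hn
        _ ≤ x := hle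
    refine ⟨m, Finset.mem_Ioc.2 ⟨hm, hmx⟩, ?_⟩
    rw [Finset.mem_image]
    refine ⟨n, Finset.mem_Ioc.2 ⟨hn, ?_⟩, hkm.symm⟩
    rw [Nat.le_div_iff_mul_le hm0]
    linarith [mul_comm (m ^ 2) n]
  rcases Nat.lt_or_ge x w with hxw | hxw
  · have hempty : S = ∅ := by
      rw [Finset.Ioc_eq_empty (by omega)] at h1
      simpa using h1
    rw [hempty]
    simp
    positivity
  have h2 : (S.card : ℝ) ≤ ∑ m ∈ Finset.Ioc w x, (x : ℝ) * (((m : ℝ) ^ 2)⁻¹) := by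
    calc (S.card : ℝ) ≤ (((Finset.Ioc w x).biUnion
          (fun m => (Finset.Ioc 0 (x / m ^ 2)).image (fun t => m ^ 2 * t + lam))).card : ℝ) := by
          exact_mod_cast Finset.card_le_card h1
      _ ≤ ((∑ m ∈ Finset.Ioc w x,
          ((Finset.Ioc 0 (x / m ^ 2)).image (fun t => m ^ 2 * t + lam)).card : ℕ) : ℝ) := by
          exact_mod_cast Finset.card_biUnion_le
      _ = ∑ m ∈ Finset.Ioc w x,
          (((Finset.Ioc 0 (x / m ^ 2)).image (fun t => m ^ 2 * t + lam)).card : ℝ) := by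
          push_cast; rfl
      _ ≤ ∑ m ∈ Finset.Ioc w x, (x : ℝ) * (((m : ℝ) ^ 2)⁻¹) := by
          refine Finset.sum_le_sum ?_
          intro m hm
          have h3 : ((Finset.Ioc 0 (x / m ^ 2)).image (fun t => m ^ 2 * t + lam)).card ≤
              x / m ^ 2 := by
            refine Finset.card_image_le.trans ?_
            simp
          have h4 : ((x / m ^ 2 : ℕ) : ℝ) ≤ (x : ℝ) / ((m ^ 2 : ℕ) : ℝ) := Nat.cast_div_le
          have h5 : (((Finset.Ioc 0 (x / m ^ 2)).image (fun t => m ^ 2 * t + lam)).card : ℝ) ≤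
              ((x / m ^ 2 : ℕ) : ℝ) := by exact_mod_cast h3
          refine h5.trans (h4.trans (le_of_eq ?_))
          push_cast
          rw [div_eq_mul_inv]
  have h6 := sum_Ioc_inv_sq_le_sub (α := ℝ) (k := w) (n := x) (by omega) hxw
  rw [← Finset.mul_sum] at h2
  have h7 : (x : ℝ) * ∑ m ∈ Finset.Ioc w x, (((m : ℝ) ^ 2)⁻¹) ≤ (x : ℝ) * ((w : ℝ)⁻¹ - (x : ℝ)⁻¹) :=
    mul_le_mul_of_nonneg_left h6 (by positivity)
  have h8 : (x : ℝ) * ((w : ℝ)⁻¹ - (x : ℝ)⁻¹) ≤ (x : ℝ) / w := by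
    rw [div_eq_mul_inv]
    apply mul_le_mul_of_nonneg_left _ (by positivity)
    have : (0 : ℝ) ≤ (x : ℝ)⁻¹ := by positivity
    linarith
  linarith

theorem cntz_sumsq (w : ℕ) (hw : 1 ≤ w) : ∑ m ∈ Finset.Ioc 0 w, (((m : ℝ) ^ 2)⁻¹) ≤ 2 := by
  have h1 : Finset.Ioc 0 w = insert 1 (Finset.Ioc 1 w) := by
    ext a
    simp only [Finset.mem_Ioc, Finset.mem_insert]
    omega
  rw [h1, Finset.sum_insert (by simp)]
  have h2 := sum_Ioc_inv_sq_le_sub (α := ℝ) (k := 1) (n := w) (by norm_num) hw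
  have h3 : (0 : ℝ) ≤ (w : ℝ)⁻¹ := by positivity
  norm_num at h2 ⊢
  linarith

theorem st_CNTZ (h1 : ST_PERT) (h2 : ST_TSET) (h3 : ST_SUMT) : ST_CNTZ := by
  classical
  intro lam η hlam hη
  obtain ⟨I, A, C1, hI, hA, hC1, hP⟩ := h1 lam (η / 2) hlam (by positivity)
  obtain ⟨C2, hC2, hSum⟩ := h3
  obtain ⟨C3, hC3, hG⟩ := cntz_growth C2 (η / 2) I hC2 (by positivity) hI
  refine ⟨A, C1 * 2 * C3, hA, by positivity, ?_⟩
  intro x W w z hWw hw hwz hzA S hS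
  have hw2 : 2 ≤ w := by omega
  have hw0 : (1 : ℝ) < w := by exact_mod_cast (by omega : 1 < w)
  have hz0 : (1 : ℝ) < z := by exact_mod_cast (by omega : 1 < z)
  have hlw : 0 < Real.log w := Real.log_pos hw0
  have hlz : 0 < Real.log z := Real.log_pos hz0
  have hlwz : Real.log w ≤ Real.log z :=
    Real.log_le_log (by linarith) (by exact_mod_cast hwz)
  -- the ratio
  set t : ℝ := LL w z with ht
  have ht0 : 0 ≤ t := by
    rw [ht, LL]
    apply Real.log_nonneg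
    rw [le_div_iff₀ hlw]
    linarith
  have hrat : Real.log w / Real.log z = Real.exp (-t) := by
    rw [ht, LL, ← Real.log_inv, Real.exp_log (by positivity), inv_div]
  -- decomposition
  have hdec : ∀ k ∈ S, ∃ m s : ℕ, 1 ≤ m ∧ Squarefree s ∧ 1 ≤ s ∧ k = m ^ 2 * s + lam := by
    intro k hk
    obtain ⟨-, τ, -, v, n, hkn, hn, -⟩ := hS k hk
    obtain ⟨s, m, hms, hsq⟩ := Nat.sq_mul_squarefree n
    have hm : 1 ≤ m := by
      rcases Nat.eq_zero_or_pos m with h | h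
      · subst h; simp at hms; omega
      · exact h
    have hs : 1 ≤ s := by
      rcases Nat.eq_zero_or_pos s with h | h
      · subst h; simp at hms; omega
      · exact h
    exact ⟨m, s, hm, hsq, hs, by rw [hms]; exact hkn⟩
  let Q : ℕ → Finset ℕ → ℕ → Prop := fun m T k =>
    (∃ s, Squarefree s ∧ k = m ^ 2 * s + lam) ∧ (∀ q ∈ T, FD lam q k) ∧
      (∀ l ∈ PP w (yT I T z), FD lam l k → l ∈ T)
  let TT : Finset (Finset ℕ) := (PP w z).powerset.filter (fun T => T.card ≤ I)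
  let SB : Finset ℕ := S.filter (fun k => ∃ m n : ℕ, w < m ∧ 1 ≤ n ∧ k = m ^ 2 * n + lam)
  have hcover : S ⊆ SB ∪ (Finset.Ioc 0 w).biUnion
      (fun m => TT.biUnion (fun T => S.filter (fun k => Q m T k))) := by
    intro k hk
    obtain ⟨m, s, hm, hsq, hs, hkm⟩ := hdec k hk
    rw [Finset.mem_union]
    rcases Nat.lt_or_ge w m with hmw | hmw
    · left
      exact Finset.mem_filter.2 ⟨hk, m, s, hmw, hs, hkm⟩
    · right
      rw [Finset.mem_biUnion]
      refine ⟨m, Finset.mem_Ioc.2 ⟨hm, hmw⟩, ?_⟩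
      rw [Finset.mem_biUnion]
      obtain ⟨T, hT1, hT2, hT3, hT4⟩ := h2 lam w z I k hI
      refine ⟨T, Finset.mem_filter.2 ⟨Finset.mem_powerset.2 hT1, hT2⟩, ?_⟩
      exact Finset.mem_filter.2 ⟨hk, ⟨s, hsq, hkm⟩, hT3, hT4⟩
  have hSB : (SB.card : ℝ) ≤ (x : ℝ) / w := by
    apply cntz_big lam x w (by omega)
    intro k hk
    rw [Finset.mem_filter] at hk
    exact ⟨(hS k hk.1).1, hk.2⟩
  set R : ℝ := (Real.log w / Real.log z) ^ (1 + kap lam - η / 2) with hR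
  have hR0 : 0 ≤ R := by rw [hR]; positivity
  have hpiece : ∀ m ∈ Finset.Ioc 0 w, ∀ T ∈ TT,
      ((S.filter (fun k => Q m T k)).card : ℝ) ≤
        C1 * (∏ q ∈ T, (2 / (q : ℝ))) * ((x : ℝ) / (m : ℝ) ^ 2) * R := by
    intro m hm T hT
    rw [Finset.mem_Ioc] at hm
    rw [Finset.mem_filter, Finset.mem_powerset] at hT
    refine hP x W w z m T hWw hw hwz hzA hm.1 hm.2 hT.1 hT.2 _ ?_
    intro k hk
    rw [Finset.mem_filter] at hk
    exact ⟨(hS k hk.1).1, (hS k hk.1).2, hk.2.1, hk.2.2.1, hk.2.2.2⟩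
  have hprod0 : ∀ T ∈ TT, 0 ≤ ∏ q ∈ T, (2 / (q : ℝ)) := by
    intro T _
    exact Finset.prod_nonneg (fun q _ => by positivity)
  have hcard : (S.card : ℝ) ≤ (x : ℝ) / w +
      ∑ m ∈ Finset.Ioc 0 w, ∑ T ∈ TT,
        C1 * (∏ q ∈ T, (2 / (q : ℝ))) * ((x : ℝ) / (m : ℝ) ^ 2) * R := by
    have c1 : S.card ≤ SB.card + ∑ m ∈ Finset.Ioc 0 w, ∑ T ∈ TT,
        (S.filter (fun k => Q m T k)).card := by
      refine (Finset.card_le_card hcover).trans ((Finset.card_union_le _ _).trans ?_)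
      refine Nat.add_le_add_left ?_ _
      refine Finset.card_biUnion_le.trans ?_
      refine Finset.sum_le_sum ?_
      intro m _
      exact Finset.card_biUnion_le
    have c2 : (S.card : ℝ) ≤ (SB.card : ℝ) + ∑ m ∈ Finset.Ioc 0 w, ∑ T ∈ TT,
        ((S.filter (fun k => Q m T k)).card : ℝ) := by
      exact_mod_cast c1
    refine c2.trans (add_le_add hSB ?_)
    refine Finset.sum_le_sum ?_
    intro m hm
    refine Finset.sum_le_sum ?_
    intro T hT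
    exact hpiece m hm T hT
  have hsum2 : ∑ m ∈ Finset.Ioc 0 w, ∑ T ∈ TT,
        C1 * (∏ q ∈ T, (2 / (q : ℝ))) * ((x : ℝ) / (m : ℝ) ^ 2) * R =
      C1 * x * R * (∑ m ∈ Finset.Ioc 0 w, (((m : ℝ) ^ 2)⁻¹)) *
        (∑ T ∈ TT, ∏ q ∈ T, (2 / (q : ℝ))) := by
    rw [mul_assoc, Finset.sum_mul_sum, Finset.mul_sum]
    refine Finset.sum_congr rfl ?_
    intro m _
    rw [Finset.mul_sum]
    refine Finset.sum_congr rfl ?_
    intro T _
    rw [div_eq_mul_inv (x : ℝ)]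
    ring
  have hT1 : ∑ T ∈ TT, ∏ q ∈ T, (2 / (q : ℝ)) ≤ C3 * Real.exp (η / 2 * t) := by
    refine (hSum w z I hw2 hwz).trans ?_
    exact hG t ht0
  have hT0 : 0 ≤ ∑ T ∈ TT, ∏ q ∈ T, (2 / (q : ℝ)) := Finset.sum_nonneg hprod0
  have hm1 := cntz_sumsq w (by omega)
  have hm0 : 0 ≤ ∑ m ∈ Finset.Ioc 0 w, (((m : ℝ) ^ 2)⁻¹) :=
    Finset.sum_nonneg (fun m _ => by positivity)
  have hfin : C1 * x * R * (∑ m ∈ Finset.Ioc 0 w, (((m : ℝ) ^ 2)⁻¹)) *
        (∑ T ∈ TT, ∏ q ∈ T, (2 / (q : ℝ))) ≤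
      C1 * x * R * 2 * (C3 * Real.exp (η / 2 * t)) := by
    apply mul_le_mul _ hT1 hT0 (by positivity)
    exact mul_le_mul_of_nonneg_left hm1 (by positivity)
  have hRe : R * Real.exp (η / 2 * t) = (Real.log w / Real.log z) ^ (1 + kap lam - η) := by
    rw [hR, hrat, ← Real.exp_mul, ← Real.exp_mul, ← Real.exp_add]
    congr 1
    ring
  calc (S.card : ℝ) ≤ (x : ℝ) / w + C1 * x * R * 2 * (C3 * Real.exp (η / 2 * t)) := by
        rw [hsum2] at hcard
        linarith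
    _ = C1 * 2 * C3 * x * (R * Real.exp (η / 2 * t)) + x / w := by ring
    _ = C1 * 2 * C3 * x * (Real.log w / Real.log z) ^ (1 + kap lam - η) + x / w := by
        rw [hRe]

end Pool.Agent.Helper17.SO
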